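import Pool.Agent.Helper90.MZU.Wre
import Pool.Graph.R_seed8.W566.MZ.Asm2

/-!
# Lifts with prescribed values at the complex conjugations of the layers
-/

set_option autoImplicit false

namespace Pool.Agent.Helper90.MZU

open MZ NumberField Matrix

/-- the kernel of reduction is a 2-group -/
lemma card_ker {k B : Type} [Field k] [CommRing B] [Finite B] (res : B →+* k) (N : ℕ)
    (hN : RingHom.ker res ^ N = ⊥) (h2 : (2 : B) = 0) (n : ℕ) :
    ∃ a, Nat.card (Matrix.GeneralLinearGroup.map (n := Fin n) res).ker = 2 ^ a := by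
  haveI : Finite (GL (Fin n) B) := by
    haveI : Finite (Matrix (Fin n) (Fin n) B) := inferInstanceAs (Finite (Fin n → Fin n → B))
    exact Finite.of_injective (fun g : GL (Fin n) B => (g : Matrix (Fin n) (Fin n) B)) Units.val_injective
  have hp : IsPGroup 2 (Matrix.GeneralLinearGroup.map (n := Fin n) res).ker := by
    rintro ⟨g, hg⟩
    refine ⟨N, ?_⟩
    apply Subtype.ext
    apply Units.ext
    show (((g ^ 2 ^ N : GL (Fin n) B)) : Matrix (Fin n) (Fin n) B) = 1
    obtain ⟨X, hX⟩ : ∃ X : Matrix (Fin n) (Fin n) B, (g : Matrix (Fin n) (Fin n) B) = 1 + X :=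
      ⟨g - 1, by abel⟩
    have hXm : ∀ a b, X a b ∈ RingHom.ker res := by
      intro a b
      have h1 := MonoidHom.mem_ker.mp hg
      have h3 := congrArg (fun M : GL (Fin n) k => (M : Matrix (Fin n) (Fin n) k) a b) h1
      have h4 : res ((g : Matrix (Fin n) (Fin n) B) a b) = (1 : Matrix (Fin n) (Fin n) k) a b := h3
      rw [hX, Matrix.add_apply, map_add] at h4
      have h5 : res ((1 : Matrix (Fin n) (Fin n) B) a b) = (1 : Matrix (Fin n) (Fin n) k) a b := by
        by_cases hab : a = b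
        · subst hab; simp
        · simp [Matrix.one_apply_ne hab]
      rw [h5] at h4
      rw [RingHom.mem_ker]
      linear_combination h4
    have hpow : ∀ s : ℕ, ∀ a b, (X ^ s) a b ∈ RingHom.ker res ^ s := by
      intro s
      induction s with
      | zero => intro a b; simp
      | succ s ih =>
        intro a b
        rw [pow_succ X, Matrix.mul_apply, pow_succ (RingHom.ker res)]
        exact Ideal.sum_mem _ fun c _ => Ideal.mul_mem_mul (ih a c) (hXm c b)
    have hsq : ∀ s : ℕ, (1 + X) ^ (2 ^ s) = 1 + X ^ (2 ^ s) := by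
      intro s
      induction s with
      | zero => simp
      | succ s ih =>
        rw [pow_succ, pow_mul, ih, pow_mul, sq, sq, mul_add, add_mul, add_mul, mul_one, mul_one,
          one_mul]
        have h3 : X ^ 2 ^ s + X ^ 2 ^ s = 0 := by
          rw [← two_smul B, h2, zero_smul]
        calc 1 + X ^ 2 ^ s + (X ^ 2 ^ s + X ^ 2 ^ s * X ^ 2 ^ s)
            = 1 + (X ^ 2 ^ s + X ^ 2 ^ s) + X ^ 2 ^ s * X ^ 2 ^ s := by abel
          _ = 1 + X ^ 2 ^ s * X ^ 2 ^ s := by rw [h3, add_zero]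
    rw [Units.val_pow_eq_pow_val, hX, hsq]
    have h0 : X ^ 2 ^ N = 0 := by
      ext a b
      have h3 := hpow (2 ^ N) a b
      have h4 : RingHom.ker res ^ 2 ^ N ≤ RingHom.ker res ^ N := Ideal.pow_le_pow_right Nat.lt_two_pow_self.le
      have h5 := h4 h3
      rw [hN, Ideal.mem_bot] at h5
      exact h5
    rw [h0, add_zero]
  exact IsPGroup.exists_card_eq hp

/-- constant matrices commute with scalar ones -/
lemma conj_scalar' {k B : Type} [Field k] [CommRing B] (ι : k →+* B) {n : ℕ} (M : GL (Fin n) k) (a : k)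
    (h : (M : Matrix (Fin n) (Fin n) k) = a • (1 : Matrix (Fin n) (Fin n) k)) :
    ((Matrix.GeneralLinearGroup.map ι M : GL (Fin n) B) : Matrix (Fin n) (Fin n) B) =
      ι a • (1 : Matrix (Fin n) (Fin n) B) := by
  show (M : Matrix (Fin n) (Fin n) k).map ι = _
  rw [h]
  ext i j
  by_cases hij : i = j
  · subst hij; simp
  · simp [Matrix.one_apply_ne hij]

lemma comm_scalar {k B : Type} [Field k] [CommRing B] (ι : k →+* B) {n : ℕ} (M : GL (Fin n) k) (a : k)
    (h : (M : Matrix (Fin n) (Fin n) k) = a • (1 : Matrix (Fin n) (Fin n) k)) (Y : GL (Fin n) B) :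
    Matrix.GeneralLinearGroup.map ι M * Y = Y * Matrix.GeneralLinearGroup.map ι M := by
  apply Units.ext
  rw [Units.val_mul, Units.val_mul, conj_scalar' ι M a h, Matrix.smul_mul, Matrix.mul_smul, one_mul,
    mul_one]

theorem asmW (hT : StmT) (hSZ : StmSZ) (hExt : S_EXT) (hBur : S_BUR)
    {F L E K : Type} [Field F] [NumberField F] [Field L] [NumberField L] [Field E] [Field K]
    [Algebra F L] [Algebra L E] [Algebra F E] [IsScalarTower F L E]
    [Algebra E K] [Algebra F K] [IsScalarTower F E K]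
    [FiniteDimensional F L] [IsGalois F L] [IsGalois F E] [IsGalois L E] [IsGalois F K]
    (h9 : Module.finrank F L = 9)
    (hreal : ∀ τ : L →+* ℂ, ComplexEmbedding.IsReal τ)
    (r : E) (hr2 : r ^ 2 = 2) (hr : r ∉ (algebraMap L E).range)
    (hpro : ProTwo Gal(E/L))
    (hlow : ∀ (φ : (L →+* ℂ) → (E →+* ℂ)) (c : (L →+* ℂ) → Gal(E/L)),
      (∀ τ, (φ τ).comp (algebraMap L E) = τ) → (∀ τ, ComplexEmbedding.IsConj (φ τ) (c τ)) →
      ∀ N : Subgroup Gal(E/L), N.Normal → IsOpen (N : Set Gal(E/L)) →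
        2 ^ (∑ τ, orb N (c τ) + 1) ≤ numHom2 N)
    (hgen : ∀ (φ : (L →+* ℂ) → (E →+* ℂ)) (c : (L →+* ℂ) → Gal(E/L)) (σ : Gal(E/L)),
      (∀ τ, (φ τ).comp (algebraMap L E) = τ) → (∀ τ, ComplexEmbedding.IsConj (φ τ) (c τ)) →
      (∀ r : E, r ^ 2 = 2 → σ r ≠ r) → TopGen c σ)
    {k : Type} [Field k] [Finite k] [CharP k 2] (ρbar : Gal(K/F) →* GL (Fin 3) k)
    (hρo : IsOpen (ρbar.ker : Set Gal(K/F))) (hirr : AbsIrred ρbar)
    (hρs : ∀ g : Gal(K/F), (∀ x : L, g (algebraMap E K (algebraMap L E x)) =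
        algebraMap E K (algebraMap L E x)) →
      ∃ a : k, (ρbar g : Matrix (Fin 3) (Fin 3) k) = a • (1 : Matrix (Fin 3) (Fin 3) k))
    (e : ℕ) :
    ∃ κ : Gal(K/F) →* Multiplicative (ZMod (2 ^ e)), Function.Surjective κ ∧
      IsOpen (κ.ker : Set Gal(K/F)) ∧
      (∀ (φ : K →+* ℂ) (g : Gal(K/F)), ComplexEmbedding.IsConj φ g → κ g = 1) ∧
      (∀ g, ∃ h ∈ κ.ker, ∃ s : k, s ≠ 0 ∧
        (ρbar g : Matrix (Fin 3) (Fin 3) k) = s • (ρbar h : Matrix (Fin 3) (Fin 3) k)) ∧
      ∀ (B : Type) [CommRing B] [Finite B] (ι : k →+* B) (res : B →+* k), (∀ x, res (ι x) = x) →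
        (∃ N, RingHom.ker res ^ N = ⊥) → (2 : B) = 0 →
        ∀ (T : (F →+* ℂ) → ZMod (2 ^ e) → GL (Fin 3) B) (u : Bˣ), (∀ v j, T v j * T v j = 1) →
        (∀ v j, Matrix.GeneralLinearGroup.map res (T v j) = 1) → res (u : B) = 1 →
        ∃ ρ : κ.ker →* GL (Fin 3) B,
          (∀ g, Matrix.GeneralLinearGroup.map res (ρ g) = ρbar g) ∧
          IsOpen (ρ.ker : Set κ.ker) ∧
          ∀ S : Subring B, (∀ x, ι x ∈ S) →
            (∀ g, (ρ g : Matrix (Fin 3) (Fin 3) B).trace ∈ S) →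
            (∀ v j a b, (T v j : Matrix (Fin 3) (Fin 3) B) a b ∈ S) ∧ (u : B) ∈ S := by
  classical
  haveI : CharZero E := charZero_of_injective_algebraMap (algebraMap F E).injective
  -- basic group data
  let P := Gal(E/L)
  let G := Gal(E/F)
  let j : Gal(E/L) →* Gal(E/F) := jR F L E
  have hjinj : Function.Injective j := jR_inj
  have hjo : IsOpenMap j := isOpenMap_jR
  have hjc : Continuous j := continuous_jR
  let rL : Gal(E/F) →* Gal(L/F) := AlgEquiv.restrictNormalHom L
  have hrange : j.range = rL.ker := range_jR_eq_ker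
  have hjn : j.range.Normal := by rw [hrange]; exact MonoidHom.normal_ker _
  have hrLsurj : Function.Surjective rL := AlgEquiv.restrictNormalHom_surjective E
  have hPopen : IsOpen (j.range : Set Gal(E/F)) := by
    rw [MonoidHom.coe_range]
    exact hjo.isOpen_range
  have hcard9 : Nat.card (Gal(E/F) ⧸ j.range) = 9 := by
    rw [hrange]
    rw [Nat.card_congr (QuotientGroup.quotientKerEquivOfSurjective rL hrLsurj).toEquiv,
      IsGalois.card_aut_eq_finrank, h9]
  -- the element √2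
  have hr0 : r ≠ 0 := by
    rintro rfl
    norm_num at hr2
  have hsq : ∀ g : Gal(E/F), g r = r ∨ g r = -r := by
    intro g
    have : (g r) ^ 2 = r ^ 2 := by rw [← map_pow, hr2, map_ofNat]
    exact sq_eq_sq_iff_eq_or_eq_neg.mp this
  have hneg : r ≠ -r := by
    intro h
    have : (2 : E) * r = 0 := by linear_combination h
    rcases mul_eq_zero.mp this with h2 | h2
    · norm_num at h2
    · exact hr0 h2
  let D : Subgroup Gal(E/F) := j.range ⊓ MulAction.stabilizer Gal(E/F) r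
  have hDmem : ∀ g, g ∈ D ↔ g ∈ j.range ∧ g r = r := fun g => Iff.rfl
  have hDn : D.Normal := by
    constructor
    intro n hn g
    rw [hDmem] at hn ⊢
    refine ⟨hjn.conj_mem _ hn.1 g, ?_⟩
    show g (n (g⁻¹ r)) = r
    have hginv : g (g⁻¹ r) = r := by
      show (g * g⁻¹) r = r
      rw [mul_inv_cancel, AlgEquiv.one_apply]
    rcases hsq g⁻¹ with h | h
    · rw [h] at hginv ⊢
      rw [hn.2, hginv]
    · rw [h] at hginv ⊢
      rw [map_neg, hn.2, hginv]
  have hDo : IsOpen (D : Set Gal(E/F)) := by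
    rw [Subgroup.coe_inf]
    exact hPopen.inter (isOpen_stab r)
  -- some element of P moves r
  obtain ⟨p₀, hp₀⟩ : ∃ p : Gal(E/L), p r ≠ r := by
    by_contra hcon
    push Not at hcon
    exact hr ((InfiniteGalois.mem_range_algebraMap_iff_fixed r).mpr hcon)
  have hDidx : D.relIndex j.range = 2 := by
    rw [Subgroup.relIndex, Subgroup.index_eq_two_iff]
    refine ⟨⟨j p₀, p₀, rfl⟩, ?_⟩
    rintro ⟨b, hb⟩
    rw [Subgroup.mem_subgroupOf, Subgroup.mem_subgroupOf]
    have e1 : (j p₀) r = -r := by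
      rcases hsq (j p₀) with h | h
      · exact absurd h hp₀
      · exact h
    simp only [hDmem, Subgroup.coe_mul]
    rcases hsq b with h | h
    · right
      refine ⟨⟨hb, h⟩, ?_⟩
      rintro ⟨-, h2⟩
      have : b ((j p₀) r) = r := h2
      rw [e1, map_neg, h] at this
      exact hneg this.symm
    · left
      refine ⟨⟨mul_mem hb ⟨p₀, rfl⟩, ?_⟩, ?_⟩
      · show b ((j p₀) r) = r
        rw [e1, map_neg, h, neg_neg]
      · rintro ⟨-, h2⟩
        rw [h] at h2
        exact hneg h2.symm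
  have hpro' : ∀ N : Subgroup Gal(E/F), N.Normal → IsOpen (N : Set Gal(E/F)) → N ≤ j.range →
      ∃ e : ℕ, N.relIndex j.range = 2 ^ e := by
    intro N hN hNo _
    obtain ⟨e, he⟩ := hpro (N.comap j) (hN.comap j) (hNo.preimage hjc)
    refine ⟨e, ?_⟩
    rw [← he, ← Subgroup.index_comap]
    rfl
  obtain ⟨A, σ₀, hA, hA', hσP, hσD, hσA⟩ := hSZ Gal(E/F) j.range D hjn hPopen hDn hDo inf_le_left
    hDidx ⟨2, by rw [hcard9]; norm_num⟩ hpro'
  obtain ⟨σ, rfl⟩ := hσP
  have hσr : ∀ r' : E, r' ^ 2 = 2 → σ r' ≠ r' := by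
    intro r' hr' hfix
    have : r' = r ∨ r' = -r := sq_eq_sq_iff_eq_or_eq_neg.mp (by rw [hr', hr2])
    apply hσD
    rw [hDmem]
    refine ⟨⟨σ, rfl⟩, ?_⟩
    show σ r = r
    rcases this with h | h
    · rw [← h]; exact hfix
    · rw [h, map_neg, neg_inj] at hfix; exact hfix
  -- embeddings
  have hext : ∀ v : F →+* ℂ, ∃ φ : E →+* ℂ, φ.comp (algebraMap F E) = v := by
    intro v
    letI := v.toAlgebra
    haveI : Algebra.IsAlgebraic F E := inferInstance
    let f : E →ₐ[F] ℂ := IsAlgClosed.lift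
    exact ⟨f.toRingHom, f.comp_algebraMap⟩
  choose Φ hΦ using hext
  -- complex conjugations
  have hconj : ∀ φ : E →+* ℂ, ∃ c : Gal(E/L), ComplexEmbedding.IsConj φ c := by
    intro φ
    have h1 : φ.comp (algebraMap L E) = (ComplexEmbedding.conjugate φ).comp (algebraMap L E) := by
      have := hreal (φ.comp (algebraMap L E))
      rw [ComplexEmbedding.isReal_iff] at this
      rw [← this]
      ext x
      rfl
    obtain ⟨s, hs⟩ := NumberField.ComplexEmbedding.exists_comp_symm_eq_of_comp_eq φ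
      (ComplexEmbedding.conjugate φ) h1
    exact ⟨s.symm, hs.symm⟩
  -- the element a τ
  have hres : ∀ τ : L →+* ℂ, ∃ a ∈ A, ∀ x : L,
      Φ (τ.comp (algebraMap F L)) (a⁻¹ (algebraMap L E x)) = τ x := by
    intro τ
    set v := τ.comp (algebraMap F L) with hv
    have h1 : ((Φ v).comp (algebraMap L E)).comp (algebraMap F L) = τ.comp (algebraMap F L) := by
      rw [RingHom.comp_assoc, ← IsScalarTower.algebraMap_eq, hΦ v]
    obtain ⟨s, hs⟩ := NumberField.ComplexEmbedding.exists_comp_symm_eq_of_comp_eq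
      ((Φ v).comp (algebraMap L E)) τ h1
    obtain ⟨g, hg⟩ := hrLsurj s
    obtain ⟨a, ha, q, hq, hgq⟩ := hA' g
    refine ⟨a, ha, ?_⟩
    intro x
    have h2 : rL a = s := by
      have : rL q = 1 := by
        rw [hrange] at hq
        exact hq
      rw [← hg, hgq, map_mul, this, one_mul]
    have h3 : a⁻¹ (algebraMap L E x) = algebraMap L E (s.symm x) := by
      have h4 := res_apply (F := F) (E := L) (K := E) a⁻¹ x
      rw [← h4]
      congr 1
      show (rL a⁻¹) x = _
      rw [map_inv, h2]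
      rfl
    rw [h3]
    exact RingHom.congr_fun hs x
  choose a haA ha using hres
  -- uniqueness of a
  have hauniq : ∀ (τ : L →+* ℂ) (b : Gal(E/F)), b ∈ A →
      (∀ x : L, Φ (τ.comp (algebraMap F L)) (b⁻¹ (algebraMap L E x)) = τ x) → b = a τ := by
    intro τ b hb hbx
    have h1 : a τ * b⁻¹ ∈ j.range := by
      rw [mem_range_jR]
      intro x
      have h2 : b⁻¹ (algebraMap L E x) = (a τ)⁻¹ (algebraMap L E x) := by
        apply (Φ (τ.comp (algebraMap F L))).injective
        rw [hbx, ha]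
      show (a τ) (b⁻¹ (algebraMap L E x)) = _
      rw [h2]
      show ((a τ) * (a τ)⁻¹) (algebraMap L E x) = _
      rw [mul_inv_cancel, AlgEquiv.one_apply]
    have h3 : a τ * b⁻¹ ∈ A ⊓ j.range := ⟨A.mul_mem (haA τ) (A.inv_mem hb), h1⟩
    rw [hA, Subgroup.mem_bot, mul_inv_eq_one] at h3
    exact h3.symm
  let φ : (L →+* ℂ) → (E →+* ℂ) := fun τ =>
    (Φ (τ.comp (algebraMap F L))).comp ((a τ)⁻¹ : Gal(E/F)).toRingEquiv.toRingHom
  have hφ : ∀ τ, (φ τ).comp (algebraMap L E) = τ := by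
    intro τ
    ext x
    exact ha τ x
  choose cv hcv using fun v : F →+* ℂ => hconj (Φ v)
  have hcc : ∀ τ : L →+* ℂ, ∃ q : Gal(E/L), j q = a τ * j (cv (τ.comp (algebraMap F L))) * (a τ)⁻¹ :=
    fun τ => hjn.conj_mem _ ⟨_, rfl⟩ (a τ)
  choose c hc using hcc
  have hcφ : ∀ τ, ComplexEmbedding.IsConj (φ τ) (c τ) := by
    intro τ
    have h1 := hcv (τ.comp (algebraMap F L))
    rw [ComplexEmbedding.IsConj] at h1 ⊢
    ext x
    have h2 := RingHom.congr_fun h1 ((a τ)⁻¹ x)
    have h3 : (c τ) x = (a τ) ((cv (τ.comp (algebraMap F L))) ((a τ)⁻¹ x)) := by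
      have := congrArg (fun g : Gal(E/F) => g x) (hc τ)
      exact this
    show ComplexEmbedding.conjugate (φ τ) x = (Φ (τ.comp (algebraMap F L))) ((a τ)⁻¹ ((c τ) x))
    rw [h3]
    have h4 : (a τ)⁻¹ ((a τ) ((cv (τ.comp (algebraMap F L))) ((a τ)⁻¹ x))) =
        (cv (τ.comp (algebraMap F L))) ((a τ)⁻¹ x) := by
      show ((a τ)⁻¹ * (a τ)) _ = _
      rw [inv_mul_cancel, AlgEquiv.one_apply]
    rw [h4]
    exact h2
  have hTG : TopGen c σ := hgen φ c σ hφ hcφ hσr
  have hc2 : ∀ τ, c τ * c τ = 1 := by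
    intro τ
    have h1 := hcφ τ
    rw [ComplexEmbedding.IsConj] at h1
    ext x
    apply (φ τ).injective
    have h2 := RingHom.congr_fun h1 ((c τ) x)
    have h3 := RingHom.congr_fun h1 x
    show (φ τ) ((c τ) ((c τ) x)) = (φ τ) x
    have h4 : (φ τ) ((c τ) ((c τ) x)) = star ((φ τ) ((c τ) x)) := h2.symm
    have h5 : (φ τ) ((c τ) x) = star ((φ τ) x) := h3.symm
    rw [h4, h5, star_star]
  have hAssign : Assign c σ := hT Gal(E/L) hpro (L →+* ℂ) c σ hc2 hTG
    (fun N hN hNo => by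
      have := hlow φ c hφ hcφ N hN hNo
      convert this)
  -- restriction K → E
  let rs : Gal(K/F) →* Gal(E/F) := AlgEquiv.restrictNormalHom E
  have hresc : Continuous rs := continuous_res
  have hress : Function.Surjective rs := AlgEquiv.restrictNormalHom_surjective K
  have hress' := hress
  have hρs' : ∀ g, rs g ∈ j.range → ∃ a : k,
      (ρbar g : Matrix (Fin 3) (Fin 3) k) = a • (1 : Matrix (Fin 3) (Fin 3) k) := by
    intro g hg
    refine hρs g (fun x => ?_)
    rw [← res_apply (F := F) (E := E) (K := K) g]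
    rw [mem_range_jR] at hg
    exact congrArg _ (hg x)
  choose lf hlf using hress
  let π : Gal(E/F) → (L →+* ℂ) → (L →+* ℂ) := fun b τ =>
    τ.comp ((rL b)⁻¹ : Gal(L/F)).toRingEquiv.toRingHom
  have hπv : ∀ b τ, (π b τ).comp (algebraMap F L) = τ.comp (algebraMap F L) := by
    intro b τ
    ext x
    show τ ((rL b)⁻¹ (algebraMap F L x)) = τ (algebraMap F L x)
    rw [AlgEquiv.commutes]
  have hπa : ∀ b ∈ A, ∀ τ, a (π b τ) = b * a τ := by
    intro b hb τ
    refine (hauniq (π b τ) (b * a τ) (A.mul_mem hb (haA τ)) ?_).symm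
    intro x
    rw [hπv]
    have h1 : (b * a τ)⁻¹ (algebraMap L E x) = (a τ)⁻¹ (algebraMap L E ((rL b)⁻¹ x)) := by
      rw [_root_.mul_inv_rev]
      show (a τ)⁻¹ (b⁻¹ (algebraMap L E x)) = _
      congr 1
      have h4 := res_apply (F := F) (E := L) (K := E) b⁻¹ x
      rw [← h4]
      congr 1
      show (rL b⁻¹) x = _
      rw [map_inv]
    rw [h1]
    exact ha τ _
  have hπc : ∀ b ∈ A, ∀ τ, b * j (c τ) * b⁻¹ = j (c (π b τ)) := by
    intro b hb τ
    rw [hc, hc, hπa b hb, hπv]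
    group
  have hσc : ∀ b ∈ A, b * j σ * b⁻¹ = j σ := by
    intro b hb
    rw [hσA b hb, mul_inv_cancel_right]
  -- elements of A with prescribed projective image
  have hAel : ∀ h, ∃ b ∈ A, ∃ s : k, s ≠ 0 ∧
      (ρbar h : Matrix (Fin 3) (Fin 3) k) = s • (ρbar (lf b) : Matrix (Fin 3) (Fin 3) k) := by
    intro h
    obtain ⟨b, hb, q, hq, hbq⟩ := hA' (rs h)
    obtain ⟨s, hs⟩ := hρs' (h * (lf b)⁻¹) (by
      rw [map_mul, map_inv, hlf, hbq, mul_inv_cancel_right]
      exact hq)
    refine ⟨b, hb, s, ?_, ?_⟩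
    · rintro rfl
      rw [zero_smul] at hs
      have := (ρbar (h * (lf b)⁻¹)).isUnit
      rw [hs] at this
      exact not_isUnit_zero this
    · have : ρbar h = ρbar (h * (lf b)⁻¹) * ρbar (lf b) := by rw [← map_mul]; congr 1; group
      rw [this, Units.val_mul, hs, Matrix.smul_mul, one_mul]
  -- the projection to the layer
  obtain ⟨κP, hκo, hκc, hκσ⟩ := exists_kappa hAssign e
  obtain ⟨κ, hκ1, hκ2⟩ := hExt Gal(E/L) Gal(E/F) Gal(K/F) (Multiplicative (ZMod (2 ^ e))) j hjinj hjo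
    hjc hjn rs hresc hress' A hA hA' (L →+* ℂ) c σ hTG π hπc hσc 1 (by
      have : ((1 : Gal(K/F) →* Multiplicative (ZMod (2 ^ e))).ker : Set Gal(K/F)) = Set.univ := by
        rw [MonoidHom.ker_one]; rfl
      rw [this]; exact isOpen_univ) κP hκo (fun _ _ q => mul_comm _ _)
    (fun g _ i => by rw [hκc, hκc]; simp) (fun _ _ => mul_comm _ _)
  have hκ3 : ∀ (g : Gal(K/F)) (q : Gal(E/L)), ∀ a ∈ A, rs g = j q * a → κ g = κP q := by
    intro g q a ha h
    rw [hκ2 g q a ha h]
    simp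
  -- embeddings with a = 1
  have haτ : ∀ v : F →+* ℂ, ((Φ v).comp (algebraMap L E)).comp (algebraMap F L) = v ∧
      a ((Φ v).comp (algebraMap L E)) = 1 := by
    intro v
    have h1 : ((Φ v).comp (algebraMap L E)).comp (algebraMap F L) = v := by
      rw [RingHom.comp_assoc, ← IsScalarTower.algebraMap_eq, hΦ v]
    refine ⟨h1, ?_⟩
    refine (hauniq _ 1 A.one_mem ?_).symm
    intro x
    rw [h1, inv_one, AlgEquiv.one_apply]
    rfl
  let tv : (F →+* ℂ) → (L →+* ℂ) := fun v => (Φ v).comp (algebraMap L E)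
  have hctv : ∀ v, c (tv v) = cv v := by
    intro v
    apply hjinj
    rw [hc, (haτ v).2, (haτ v).1]
    simp
  refine ⟨κ, ?_, hκ1, ?_, ?_, ?_⟩
  · -- surjectivity
    intro x
    obtain ⟨n, hn⟩ : ∃ n : ℕ, ((n : ℕ) : ZMod (2 ^ e)) = Multiplicative.toAdd x :=
      ⟨(Multiplicative.toAdd x).val, ZMod.natCast_zmod_val _⟩
    refine ⟨(lf (j σ)) ^ n, ?_⟩
    rw [map_pow, hκ3 (lf (j σ)) σ 1 A.one_mem (by rw [hlf, mul_one]), hκσ, ← ofAdd_nsmul,
      nsmul_eq_mul, mul_one, hn]
    rfl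
  · -- complex conjugations
    intro ψ g hg
    set v := ψ.comp (algebraMap F K) with hv
    have h1 : (Φ v).comp (algebraMap F E) = (ψ.comp (algebraMap E K)).comp (algebraMap F E) := by
      rw [hΦ v, RingHom.comp_assoc, ← IsScalarTower.algebraMap_eq]
    obtain ⟨s, hs⟩ := NumberField.ComplexEmbedding.exists_comp_symm_eq_of_comp_eq (Φ v)
      (ψ.comp (algebraMap E K)) h1
    -- `ψ = Φ v ∘ s.symm` on `E`
    have hs' : ∀ x : E, ψ (algebraMap E K x) = Φ v (s.symm x) := fun x =>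
      (RingHom.congr_fun hs x).symm
    have hgE : ∀ x : E, algebraMap E K (rs g x) = g (algebraMap E K x) := fun x =>
      res_apply (F := F) (E := E) (K := K) g x
    have key : ∀ x : E, (s.symm) (rs g x) = (j (cv v)) (s.symm x) := by
      intro x
      apply (Φ v).injective
      rw [← hs', hgE]
      have h2 := RingHom.congr_fun hg (algebraMap E K x)
      have h3 : star (ψ (algebraMap E K x)) = ψ (g (algebraMap E K x)) := h2
      rw [← h3, hs']
      exact RingHom.congr_fun (hcv v) (s.symm x)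
    have hconjg : s⁻¹ * rs g * s = j (cv v) := by
      ext x
      show s.symm (rs g (s x)) = _
      rw [key]
      congr 1
      exact s.symm_apply_apply x
    have h4 : κ ((lf s)⁻¹ * g * lf s) = κP (c (tv v)) := by
      refine hκ3 _ _ 1 A.one_mem ?_
      rw [map_mul, map_mul, map_inv, hlf, hconjg, hctv, mul_one]
    rw [hκc, map_mul, map_mul, map_inv, mul_comm (κ (lf s))⁻¹, inv_mul_cancel_right] at h4
    exact h4
  · intro g
    obtain ⟨b, hb, s, hs, h⟩ := hAel g
    refine ⟨lf b, ?_, s, hs, h⟩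
    rw [MonoidHom.mem_ker, hκ3 (lf b) 1 b hb (by rw [hlf, map_one, one_mul]), map_one]
  -- the lifts
  intro B _ _ ι res hιr hN h2 T u hT2 hTr hur
  obtain ⟨N, hN⟩ := hN
  let CB : GL (Fin 3) k →* GL (Fin 3) B := Matrix.GeneralLinearGroup.map ι
  have hCBres : ∀ M, Matrix.GeneralLinearGroup.map res (CB M) = M := by
    intro M
    ext x y
    exact hιr _
  let Kg : Subgroup (GL (Fin 3) B) := (Matrix.GeneralLinearGroup.map (n := Fin 3) res).ker
  haveI hKgf : Finite Kg := by
    haveI : Finite (Matrix (Fin 3) (Fin 3) B) := inferInstanceAs (Finite (Fin 3 → Fin 3 → B))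
    haveI : Finite (GL (Fin 3) B) :=
      Finite.of_injective (fun g : GL (Fin 3) B => (g : Matrix (Fin 3) (Fin 3) B)) Units.val_injective
    infer_instance
  have hKg2 : ∃ a, Nat.card Kg = 2 ^ a := card_ker res N hN h2 3
  have hKgn : Kg.Normal := MonoidHom.normal_ker _
  let R : Gal(E/F) → GL (Fin 3) B := fun b => CB (ρbar (lf b))
  have hcs : ∀ g, rs g ∈ j.range → ∀ Y : GL (Fin 3) B, CB (ρbar g) * Y = Y * CB (ρbar g) := by
    intro g hg Y
    obtain ⟨s, hs⟩ := hρs' g hg
    exact comm_scalar ι _ s hs Y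
  have hRmul : ∀ (g : Gal(K/F)) (b : Gal(E/F)) (Y : GL (Fin 3) B),
      R (rs g * b) * Y * (R (rs g * b))⁻¹ = CB (ρbar g) * (R b * Y * (R b)⁻¹) * (CB (ρbar g))⁻¹ := by
    intro g b Y
    have h3 := hcs (lf (rs g * b) * (g * lf b)⁻¹) (by
      rw [map_mul, map_inv, map_mul, hlf, hlf, mul_inv_cancel]
      exact Subgroup.one_mem _) (CB (ρbar (g * lf b)) * Y * (CB (ρbar (g * lf b)))⁻¹)
    have e1 : R (rs g * b) = CB (ρbar (lf (rs g * b) * (g * lf b)⁻¹)) * CB (ρbar (g * lf b)) := by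
      show CB (ρbar (lf (rs g * b))) = _
      rw [← map_mul, ← map_mul, inv_mul_cancel_right]
    have e2 : CB (ρbar (g * lf b)) = CB (ρbar g) * R b := by rw [map_mul, map_mul]
    calc R (rs g * b) * Y * (R (rs g * b))⁻¹
        = CB (ρbar (lf (rs g * b) * (g * lf b)⁻¹)) * (CB (ρbar (g * lf b)) * Y *
          (CB (ρbar (g * lf b)))⁻¹) * (CB (ρbar (lf (rs g * b) * (g * lf b)⁻¹)))⁻¹ := by
          rw [e1]; group
      _ = CB (ρbar (g * lf b)) * Y * (CB (ρbar (g * lf b)))⁻¹ := by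
          rw [h3, mul_inv_cancel_right]
      _ = _ := by rw [e2]; group
  -- the assignment
  have htm : ∀ (τ : L →+* ℂ) (i : ZMod (2 ^ e)),
      R (a τ) * T (τ.comp (algebraMap F L)) i * (R (a τ))⁻¹ ∈ Kg := fun τ i =>
    hKgn.conj_mem _ (MonoidHom.mem_ker.mpr (hTr _ _)) _
  let t : (L →+* ℂ) → ZMod (2 ^ e) → Kg := fun τ i => ⟨_, htm τ i⟩
  have ht2 : ∀ τ i, t τ i * t τ i = 1 := by
    intro τ i
    apply Subtype.ext
    show R (a τ) * T (τ.comp (algebraMap F L)) i * (R (a τ))⁻¹ *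
      (R (a τ) * T (τ.comp (algebraMap F L)) i * (R (a τ))⁻¹) = 1
    calc _ = R (a τ) * (T (τ.comp (algebraMap F L)) i * T (τ.comp (algebraMap F L)) i) *
          (R (a τ))⁻¹ := by group
      _ = 1 := by rw [hT2, mul_one, mul_inv_cancel]
  -- the scalar
  let us : GL (Fin 3) B := Units.map (Matrix.scalar (Fin 3)).toMonoidHom u
  have hus : (us : Matrix (Fin 3) (Fin 3) B) = (u : B) • (1 : Matrix (Fin 3) (Fin 3) B) := by
    show Matrix.scalar (Fin 3) (u : B) = _
    rw [Matrix.smul_one_eq_diagonal]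
    rfl
  have husc : ∀ Y : GL (Fin 3) B, us * Y = Y * us := by
    intro Y
    apply Units.ext
    rw [Units.val_mul, Units.val_mul, hus, Matrix.smul_mul, Matrix.mul_smul, one_mul, mul_one]
  have husK : us ∈ Kg := by
    rw [MonoidHom.mem_ker]
    ext x y
    show res ((us : Matrix (Fin 3) (Fin 3) B) x y) = (1 : Matrix (Fin 3) (Fin 3) k) x y
    rw [hus]
    by_cases hxy : x = y
    · subst hxy; simp [hur]
    · simp [Matrix.one_apply_ne hxy]
  obtain ⟨f₀, hf₀o, hf₀c, hf₀σ⟩ := wre hAssign e Kg hKg2 t ⟨us, husK⟩ ht2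
  let f : Gal(E/L) →* Wr (GL (Fin 3) B) (2 ^ e) := (wrMap (2 ^ e) Kg.subtype).comp f₀
  have hfo : IsOpen (f.ker : Set Gal(E/L)) := by
    refine Subgroup.isOpen_mono (H₁ := f₀.ker) ?_ hf₀o
    intro q hq
    rw [MonoidHom.mem_ker] at hq ⊢
    show (wrMap (2 ^ e) Kg.subtype) (f₀ q) = 1
    rw [hq, map_one]
  have hfc : ∀ τ, f (c τ) = bse _ (fun i => (t τ i : GL (Fin 3) B)) := by
    intro τ
    show (wrMap (2 ^ e) Kg.subtype) (f₀ (c τ)) = _
    rw [hf₀c, wrMap_bse]
    rfl
  have hfσ : f σ = sg _ us := by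
    show (wrMap (2 ^ e) Kg.subtype) (f₀ σ) = _
    rw [hf₀σ, wrMap_sg]
    rfl
  have hfK : ∀ q i, (f q).left i ∈ Kg := fun q i => (((f₀ q).left i : Kg)).2
  -- the constant homomorphism
  let χ : Gal(K/F) →* Wr (GL (Fin 3) B) (2 ^ e) :=
    { toFun := fun g => bse _ (fun _ => CB (ρbar g))
      map_one' := by rw [map_one, map_one]; rfl
      map_mul' := fun g h => by
        rw [bse_mul, map_mul, map_mul]; rfl }
  have hχa : ∀ g, χ g = bse _ (fun _ => CB (ρbar g)) := fun g => rfl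
  have hχo : IsOpen (χ.ker : Set Gal(K/F)) := by
    refine Subgroup.isOpen_mono (H₁ := ρbar.ker) ?_ hρo
    intro g hg
    rw [MonoidHom.mem_ker] at hg ⊢
    rw [hχa, hg, map_one]
    rfl
  have hχcen : ∀ g, rs g ∈ j.range → ∀ x : Wr (GL (Fin 3) B) (2 ^ e), χ g * x = x * χ g := by
    intro g hg x
    refine SemidirectProduct.ext ?_ ?_
    · rw [SemidirectProduct.mul_left, SemidirectProduct.mul_left]
      funext i
      rw [hχa]
      simp only [Pi.mul_apply, bse_left, bse_right, map_one, MulAut.one_apply, sh_apply]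
      exact hcs g hg _
    · rw [SemidirectProduct.mul_right, SemidirectProduct.mul_right]
      exact mul_comm _ _
  obtain ⟨Ψ, hΨo, hΨ⟩ := hExt Gal(E/L) Gal(E/F) Gal(K/F) (Wr (GL (Fin 3) B) (2 ^ e)) j hjinj hjo
    hjc hjn rs hresc hress' A hA hA' (L →+* ℂ) c σ hTG π hπc hσc χ hχo f hfo
    (fun g hg q => hχcen g hg _)
    (fun g hg τ => by
      rw [hfc, hfc, hχa, eq_mul_inv_iff_mul_eq, bse_mul, bse_mul]
      congr 1
      funext i
      show (R (a (π (rs g) τ)) * T ((π (rs g) τ).comp (algebraMap F L)) i *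
        (R (a (π (rs g) τ)))⁻¹) * CB (ρbar g) = CB (ρbar g) * (R (a τ) *
          T (τ.comp (algebraMap F L)) i * (R (a τ))⁻¹)
      rw [hπv, hπa _ hg, hRmul, inv_mul_cancel_right])
    (fun g _ => by
      rw [hfσ, hχa]
      refine SemidirectProduct.ext ?_ ?_
      · rw [SemidirectProduct.mul_left, SemidirectProduct.mul_left]
        funext i
        simp only [Pi.mul_apply, bse_left, bse_right, map_one, MulAut.one_apply, sh_apply]
        show CB (ρbar g) * (Pi.mulSingle 0 us : ZMod (2 ^ e) → GL (Fin 3) B) i =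
          (Pi.mulSingle 0 us : ZMod (2 ^ e) → GL (Fin 3) B) i * CB (ρbar g)
        by_cases h : i = 0
        · subst h
          rw [Pi.mulSingle_eq_same, husc]
        · rw [Pi.mulSingle_eq_of_ne h, mul_one, one_mul]
      · rw [SemidirectProduct.mul_right, SemidirectProduct.mul_right]
        exact mul_comm _ _)
  -- the right component
  have hfκ : (SemidirectProduct.rightHom (φ := sh (GL (Fin 3) B) (2 ^ e))).comp f = κP := by
    refine hom_ext hTG _ _ ?_ hκo ?_ ?_
    · refine Subgroup.isOpen_mono (H₁ := f.ker) ?_ hfo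
      intro q hq
      rw [MonoidHom.mem_ker] at hq ⊢
      rw [MonoidHom.comp_apply, hq, map_one]
    · intro τ
      rw [MonoidHom.comp_apply, hfc, hκc]
      rfl
    · rw [MonoidHom.comp_apply, hfσ, hκσ]
      rfl
  have hdec : ∀ g : Gal(K/F), ∃ q : Gal(E/L), ∃ a ∈ A, rs g = j q * a := by
    intro g
    obtain ⟨a, ha, x, ⟨q, rfl⟩, h⟩ := hA' (rs g)
    exact ⟨q, a, ha, h⟩
  have hΨκ : ∀ g, (Ψ g).right = κ g := by
    intro g
    obtain ⟨q, a, ha, h⟩ := hdec g
    rw [hΨ g q a ha h, hκ3 g q a ha h, SemidirectProduct.mul_right, hχa, bse_right, mul_one]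
    exact DFunLike.congr_fun hfκ q
  let ρ : κ.ker →* GL (Fin 3) B :=
    { toFun := fun g => (Ψ g).left 0
      map_one' := by simp
      map_mul' := fun g h => by
        have h1 : (Ψ (g : Gal(K/F))).right = 1 := by rw [hΨκ]; exact g.2
        rw [Subgroup.coe_mul, map_mul, SemidirectProduct.mul_left, h1]
        simp }
  have hρa : ∀ g : κ.ker, ρ g = (Ψ g).left 0 := fun g => rfl
  refine ⟨ρ, ?_, ?_, ?_⟩
  · rintro ⟨g, hg⟩
    obtain ⟨q, a, ha, h⟩ := hdec g
    rw [hρa]
    show Matrix.GeneralLinearGroup.map res ((Ψ g).left 0) = ρbar g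
    rw [hΨ g q a ha h, SemidirectProduct.mul_left, Pi.mul_apply, map_mul, hχa, sh_apply, bse_left,
      hCBres, MonoidHom.mem_ker.mp (hfK q 0), one_mul]
  · have h1 : IsOpen ((Ψ.ker.subgroupOf κ.ker : Subgroup κ.ker) : Set κ.ker) :=
      hΨo.preimage continuous_subtype_val
    refine Subgroup.isOpen_mono (H₁ := Ψ.ker.subgroupOf κ.ker) ?_ h1
    rintro ⟨g, hg⟩ hg'
    rw [Subgroup.mem_subgroupOf] at hg'
    have h3 : Ψ g = 1 := MonoidHom.mem_ker.mp hg'
    rw [MonoidHom.mem_ker, hρa]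
    show (Ψ g).left 0 = 1
    rw [h3]
    rfl
  · intro S hSι hStr
    have hΨA : ∀ b ∈ A, Ψ (lf b) = χ (lf b) := by
      intro b hb
      rw [hΨ (lf b) 1 b hb (by rw [hlf, map_one, one_mul]), map_one, one_mul]
    have hΨj : ∀ q, Ψ (lf (j q)) = f q * χ (lf (j q)) := fun q =>
      hΨ _ q 1 A.one_mem (by rw [hlf, mul_one])
    have hcj : ∀ q, rs (lf (j q)) ∈ j.range := fun q => by rw [hlf]; exact ⟨q, rfl⟩
    -- matrices in the span of the representation
    have hmat : ∀ (Y : Matrix (Fin 3) (Fin 3) B),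
        (∀ b ∈ A, (((CB (ρbar (lf b)) : GL (Fin 3) B) : Matrix (Fin 3) (Fin 3) B) * Y).trace ∈ S) →
        ∀ x y, Y x y ∈ S := by
      intro Y hY x y
      have hall : ∀ M : Matrix (Fin 3) (Fin 3) k, (M.map ι * Y).trace ∈ S := by
        intro M
        have hM : M ∈ Submodule.span k (Set.range fun g : Gal(K/F) =>
            (ρbar g : Matrix (Fin 3) (Fin 3) k)) := by
          rw [hBur k Gal(K/F) 3 ρbar hirr]; trivial
        induction hM using Submodule.span_induction with
        | mem M hM =>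
          obtain ⟨g, rfl⟩ := hM
          obtain ⟨b, hb, s, -, h⟩ := hAel g
          have e1 : (ρbar g : Matrix (Fin 3) (Fin 3) k).map ι =
              ι s • ((CB (ρbar (lf b)) : GL (Fin 3) B) : Matrix (Fin 3) (Fin 3) B) := by
            rw [h]
            ext x y
            show ι (s * (ρbar (lf b) : Matrix (Fin 3) (Fin 3) k) x y) = ι s * ι _
            rw [map_mul]
          show ((ρbar g : Matrix (Fin 3) (Fin 3) k).map ι * Y).trace ∈ S
          rw [e1, Matrix.smul_mul, Matrix.trace_smul, smul_eq_mul]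
          exact S.mul_mem (hSι _) (hY b hb)
        | zero =>
          have : (0 : Matrix (Fin 3) (Fin 3) k).map ι = 0 := by ext x y; simp
          rw [this, zero_mul, Matrix.trace_zero]
          exact S.zero_mem
        | add M M' _ _ h1 h2 =>
          have : (M + M').map ι = M.map ι + M'.map ι := by ext x y; simp
          rw [this, add_mul, Matrix.trace_add]
          exact S.add_mem h1 h2
        | smul s M _ h1 =>
          have : (s • M).map ι = ι s • M.map ι := by ext x y; simp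
          rw [this, Matrix.smul_mul, Matrix.trace_smul, smul_eq_mul]
          exact S.mul_mem (hSι _) h1
      have h3 := hall (Matrix.single y x 1)
      have h4 : ((Matrix.single y x (1 : k)).map ι * Y).trace = Y x y := by
        have : (Matrix.single y x (1 : k)).map ι = Matrix.single y x (1 : B) := by
          ext p q
          simp only [Matrix.map_apply, Matrix.single_apply]
          split_ifs <;> simp
        rw [this, Matrix.trace_single_mul]
        simp
      rwa [h4] at h3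
    -- scalars
    have hsc : ∀ q, ∃ s : k, s ≠ 0 ∧ ((CB (ρbar (lf (j q))) : GL (Fin 3) B) :
        Matrix (Fin 3) (Fin 3) B) = ι s • (1 : Matrix (Fin 3) (Fin 3) B) := by
      intro q
      obtain ⟨s, hs⟩ := hρs' _ (hcj q)
      refine ⟨s, ?_, conj_scalar' ι _ s hs⟩
      rintro rfl
      rw [zero_smul] at hs
      have := (ρbar (lf (j q))).isUnit
      rw [hs] at this
      exact not_isUnit_zero this
    have hsinv : ∀ (s : k), s ≠ 0 → ∀ y : B, ι s * y ∈ S → y ∈ S := by
      intro s hs y hy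
      have := S.mul_mem (hSι s⁻¹) hy
      rwa [← mul_assoc, ← map_mul, inv_mul_cancel₀ hs, map_one, one_mul] at this
    constructor
    · -- the involutions
      intro v i
      obtain ⟨n, hn⟩ : ∃ n : ℕ, ((n : ℕ) : ZMod (2 ^ e)) = -i := ⟨(-i).val, ZMod.natCast_zmod_val _⟩
      refine hmat _ fun b hb => ?_
      obtain ⟨s, hs0, hs⟩ := hsc (c (tv v))
      let g : Gal(K/F) := lf b * ((lf (j σ)) ^ n * lf (j (c (tv v))) * ((lf (j σ)) ^ n)⁻¹)
      have hΨσn : Ψ ((lf (j σ)) ^ n) = (sg (2 ^ e) us) ^ n * χ ((lf (j σ)) ^ n) := by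
        rw [map_pow, hΨj, hfσ, map_pow]
        have hcm : Commute (sg (2 ^ e) us) (χ (lf (j σ))) := (hχcen _ (hcj σ) _).symm
        exact hcm.mul_pow n
      have hrsn : rs ((lf (j σ)) ^ n) ∈ j.range := by
        rw [map_pow]
        exact Subgroup.pow_mem _ (hcj σ) n
      have e1 : Ψ g = χ (lf b) * (bse _ (fun l => T v (l - (n : ZMod (2 ^ e)))) *
          χ (lf (j (c (tv v))))) := by
        show Ψ (lf b * ((lf (j σ)) ^ n * lf (j (c (tv v))) * ((lf (j σ)) ^ n)⁻¹)) = _
        rw [map_mul, map_mul, map_mul, map_inv, hΨA b hb, hΨσn, hΨj]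
        congr 1
        have h5 : f (c (tv v)) = bse _ (fun l => T v l) := by
          rw [hfc]
          congr 1
          funext l
          show R (a (tv v)) * T ((tv v).comp (algebraMap F L)) l * (R (a (tv v)))⁻¹ = T v l
          have h6 : R (a (tv v)) * T v l * (R (a (tv v)))⁻¹ = T v l := by
            have h7 : rs (lf (a (tv v))) ∈ j.range := by
              rw [hlf, (haτ v).2]; exact Subgroup.one_mem _
            rw [hcs _ h7, mul_inv_cancel_right]
          rw [(haτ v).1]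
          exact h6
        rw [h5]
        have h8 := sg_conj (2 ^ e) us husc (fun l => T v l) n
        have h9 : χ ((lf (j σ)) ^ n) * (bse _ (fun l => T v l) * χ (lf (j (c (tv v))))) =
            (bse _ (fun l => T v l) * χ (lf (j (c (tv v))))) * χ ((lf (j σ)) ^ n) :=
          hχcen _ hrsn _
        calc sg (2 ^ e) us ^ n * χ (lf (j σ) ^ n) * (bse _ (fun l => T v l) *
              χ (lf (j (c (tv v))))) * (sg (2 ^ e) us ^ n * χ (lf (j σ) ^ n))⁻¹
            = sg (2 ^ e) us ^ n * (χ (lf (j σ) ^ n) * (bse _ (fun l => T v l) *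
              χ (lf (j (c (tv v)))))) * (χ (lf (j σ) ^ n))⁻¹ * (sg (2 ^ e) us ^ n)⁻¹ := by
              group
          _ = sg (2 ^ e) us ^ n * bse _ (fun l => T v l) * χ (lf (j (c (tv v)))) *
              (sg (2 ^ e) us ^ n)⁻¹ := by
              rw [h9]; group
          _ = bse _ (fun l => T v (l - (n : ZMod (2 ^ e)))) * (sg (2 ^ e) us ^ n *
              χ (lf (j (c (tv v))))) * (sg (2 ^ e) us ^ n)⁻¹ := by
              rw [h8]; group
          _ = _ := by
              rw [← hχcen _ (hcj _) (sg (2 ^ e) us ^ n)]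
              group
      have hgκ : g ∈ κ.ker := by
        rw [MonoidHom.mem_ker, ← hΨκ, e1, SemidirectProduct.mul_right, SemidirectProduct.mul_right,
          hχa, hχa]
        simp
      have h6 := hStr ⟨g, hgκ⟩
      have h7 : (ρ ⟨g, hgκ⟩ : Matrix (Fin 3) (Fin 3) B) =
          ι s • (((CB (ρbar (lf b)) : GL (Fin 3) B) : Matrix (Fin 3) (Fin 3) B) *
            (T v i : Matrix (Fin 3) (Fin 3) B)) := by
        rw [hρa]
        show (((Ψ g).left 0 : GL (Fin 3) B) : Matrix (Fin 3) (Fin 3) B) = _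
        rw [e1, SemidirectProduct.mul_left, SemidirectProduct.mul_left, Pi.mul_apply, hχa, hχa]
        simp only [bse_left, bse_right, map_one, MulAut.one_apply, Pi.mul_apply]
        rw [hn, zero_sub, neg_neg, Units.val_mul, Units.val_mul, hs, Matrix.mul_smul, mul_one,
          Matrix.mul_smul]
      rw [h7, Matrix.trace_smul, smul_eq_mul] at h6
      exact hsinv s hs0 _ h6
    · -- the scalar
      obtain ⟨s, hs0, hs⟩ := hsc σ
      have hm : 1 ≤ 2 ^ e := Nat.one_le_two_pow
      obtain ⟨h3, h4⟩ := sg_pow (2 ^ e) us (2 ^ e) hm le_rfl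
      let g : Gal(K/F) := (lf (j σ)) ^ (2 ^ e)
      have hΨg : Ψ g = (sg (2 ^ e) us) ^ (2 ^ e) * (χ (lf (j σ))) ^ (2 ^ e) := by
        show Ψ ((lf (j σ)) ^ (2 ^ e)) = _
        rw [map_pow, hΨj, hfσ]
        have hcm : Commute (sg (2 ^ e) us) (χ (lf (j σ))) := (hχcen _ (hcj σ) _).symm
        exact hcm.mul_pow _
      have hχp : (χ (lf (j σ))) ^ (2 ^ e) = bse _ (fun _ => CB (ρbar (lf (j σ))) ^ (2 ^ e)) := by
        rw [← map_pow, hχa, map_pow, map_pow]
      have hgκ : g ∈ κ.ker := by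
        rw [MonoidHom.mem_ker, ← hΨκ, hΨg, SemidirectProduct.mul_right, h4, hχp, bse_right, mul_one,
          ZMod.natCast_self]
        rfl
      have h6 := hStr ⟨g, hgκ⟩
      have hpw : ∀ n : ℕ, (((CB (ρbar (lf (j σ))) ^ n : GL (Fin 3) B)) : Matrix (Fin 3) (Fin 3) B) =
          ι (s ^ n) • (1 : Matrix (Fin 3) (Fin 3) B) := by
        intro n
        rw [Units.val_pow_eq_pow_val, hs, smul_pow, one_pow, map_pow]
      have h7 : (ρ ⟨g, hgκ⟩ : Matrix (Fin 3) (Fin 3) B) =
          (ι (s ^ (2 ^ e)) * (u : B)) • (1 : Matrix (Fin 3) (Fin 3) B) := by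
        rw [hρa]
        show (((Ψ g).left 0 : GL (Fin 3) B) : Matrix (Fin 3) (Fin 3) B) = _
        rw [hΨg, SemidirectProduct.mul_left, Pi.mul_apply, h3, hχp, sh_apply, bse_left,
          Units.val_mul, hus, hpw, Matrix.smul_mul, one_mul, smul_smul, mul_comm]
      rw [h7, Matrix.trace_smul, Matrix.trace_one, smul_eq_mul] at h6
      have h8 : ((Fintype.card (Fin 3) : ℕ) : B) = 1 := by
        rw [Fintype.card_fin]
        have : ((3 : ℕ) : B) = 2 + 1 := by norm_num
        rw [this, h2, zero_add]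
      rw [h8, mul_one] at h6
      exact hsinv _ (pow_ne_zero _ hs0) _ h6

end Pool.Agent.Helper90.MZU
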