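import Pool.Graph.R_seed8.W566.MZ.Asm1

/-!
# Mazur's dimension conjecture (MP_aa8fd2_nt), unbounded defect: statements of the parts
-/

set_option autoImplicit false

namespace Pool.Agent.Helper90.MZU

open MZ NumberField IsDedekindDomain Matrix

/-- DIM: lower bound for the dimension of `R / p R` from lifts to finite rings with many traces. -/
def S_DIM : Prop :=
  ∀ (p : ℕ) [Fact p.Prime] (k : Type) [Field k] [Finite k] [CharP k p]
    (G : Type) [Group G] [TopologicalSpace G] [IsTopologicalGroup G] (n : ℕ)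
    (ρbar : G →* GL (Fin n) k) (D C : ℕ),
    (∀ r : ℕ, 1 ≤ r → ∃ (B : CNL p k) (ρ : G →* GL (Fin n) B.A), IsLift ρbar B ρ ∧
      ((p : ℕ) : B.A) = 0 ∧ IsLocalRing.maximalIdeal B.A ^ (C * r) = ⊥ ∧
      2 ^ (r ^ D) ≤ Nat.card (Algebra.adjoin (WittVector p k)
        (Set.range fun g : G => (ρ g : Matrix (Fin n) (Fin n) B.A).trace))) →
    ∀ (R : CNL p k) (ρu : G →* GL (Fin n) R.A), IsUniversal ρbar R ρu →
      (D : WithBot ℕ∞) ≤ ringKrullDim (R.A ⧸ Ideal.span {((p : ℕ) : R.A)})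

/-- RNG: finite rings with involutions the entries of which generate a large subring. -/
def S_RNG : Prop :=
  ∀ (k : Type) [Field k] [Finite k] [CharP k 2] (I : Type) [Finite I], ∃ C : ℕ, ∀ r : ℕ, 1 ≤ r →
    ∃ (B : CNL 2 k) (ι : k →+* B.A) (t : I → GL (Fin 3) B.A) (u : B.Aˣ), Finite B.A ∧
      (∀ x, B.res (ι x) = x) ∧
      (∀ a : WittVector 2 k, algebraMap (WittVector 2 k) B.A a = ι (a.coeff 0)) ∧
      (2 : B.A) = 0 ∧ IsLocalRing.maximalIdeal B.A ^ (C * r) = ⊥ ∧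
      (∀ i, t i * t i = 1) ∧ (∀ i, Matrix.GeneralLinearGroup.map B.res (t i) = 1) ∧
      B.res (u : B.A) = 1 ∧
      ∀ S : Subring B.A, (∀ x, ι x ∈ S) → (∀ i a b, (t i : Matrix (Fin 3) (Fin 3) B.A) a b ∈ S) →
        (u : B.A) ∈ S → 2 ^ (r ^ (4 * Nat.card I + 1)) ≤ Nat.card S

/-- BUR: Burnside's theorem. -/
def S_BUR : Prop :=
  ∀ (k : Type) [Field k] (G : Type) [Group G] (n : ℕ) (ρbar : G →* GL (Fin n) k), AbsIrred ρbar →
    Submodule.span k (Set.range fun g : G => (ρbar g : Matrix (Fin n) (Fin n) k)) = ⊤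

/-- DEL: `δ = 1` for totally real fields and representations which are trivial on involutions. -/
def S_DEL : Prop :=
  ∀ (F Ω : Type) [Field F] [NumberField F] [Field Ω] [Algebra F Ω]
    (S : Set (HeightOneSpectrum (𝓞 F))), (∀ φ : F →+* ℂ, ComplexEmbedding.IsReal φ) →
    ∀ (k : Type) [Field k] (ρbar : GFS Ω S →* GL (Fin 3) k),
    (∀ g : GFS Ω S, g * g = 1 → ρbar g = 1) →
    ∀ w : InfinitePlace F → InfinitePlace (FSmax S : IntermediateField F Ω),
      (∀ v : InfinitePlace F,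
        (w v).comap (algebraMap F (FSmax S : IntermediateField F Ω)) = v) →
      delta S ρbar w = 1

/-- EXT: extension of a homomorphism to the big group, discrete target (model: `MZ.extend_rep`). -/
def S_EXT : Prop :=
  ∀ (P G 𝒢 H : Type) [Group P] [TopologicalSpace P] [IsTopologicalGroup P]
    [Group G] [TopologicalSpace G] [IsTopologicalGroup G]
    [Group 𝒢] [TopologicalSpace 𝒢] [IsTopologicalGroup 𝒢] [Group H]
    (j : P →* G) (_ : Function.Injective j) (_ : IsOpenMap j) (_ : Continuous j)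
    (_ : j.range.Normal)
    (res : 𝒢 →* G) (_ : Continuous res) (_ : Function.Surjective res)
    (A : Subgroup G) (_ : A ⊓ j.range = ⊥) (_ : ∀ g : G, ∃ a ∈ A, ∃ q ∈ j.range, g = q * a)
    (ι : Type) (c : ι → P) (σ : P) (_ : TopGen c σ) (π : G → ι → ι)
    (_ : ∀ b ∈ A, ∀ i, b * j (c i) * b⁻¹ = j (c (π b i))) (_ : ∀ b ∈ A, b * j σ * b⁻¹ = j σ)
    (χ : 𝒢 →* H) (_ : IsOpen (χ.ker : Set 𝒢)) (f : P →* H) (_ : IsOpen (f.ker : Set P))
    (_ : ∀ g, res g ∈ j.range → ∀ q, χ g * f q = f q * χ g)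
    (_ : ∀ g, res g ∈ A → ∀ i, f (c (π (res g) i)) = χ g * f (c i) * (χ g)⁻¹)
    (_ : ∀ g, res g ∈ A → χ g * f σ = f σ * χ g),
    ∃ Φ : 𝒢 →* H, IsOpen (Φ.ker : Set 𝒢) ∧
      ∀ (g : 𝒢) (q : P), ∀ a ∈ A, res g = j q * a → Φ g = f q * χ g

end Pool.Agent.Helper90.MZU
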