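import Pool.Agent.Helper90.MZU.Stm

/-!
# Wreath products with cyclic groups
-/

set_option autoImplicit false

namespace Pool.Agent.Helper90.MZU

open MZ

/-- the shift -/
def sh (H : Type) [Group H] (m : ℕ) : Multiplicative (ZMod m) →* MulAut (ZMod m → H) where
  toFun a :=
    { toFun := fun f j => f (j - Multiplicative.toAdd a)
      invFun := fun f j => f (j + Multiplicative.toAdd a)
      left_inv := fun f => by funext j; simp
      right_inv := fun f => by funext j; simp
      map_mul' := fun f g => rfl }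
  map_one' := by
    ext f j
    simp
  map_mul' a b := by
    ext f j
    simp [sub_sub]

@[simp] lemma sh_apply {H : Type} [Group H] {m : ℕ} (a : Multiplicative (ZMod m)) (f : ZMod m → H)
    (j : ZMod m) : sh H m a f j = f (j - Multiplicative.toAdd a) := rfl

/-- the wreath product -/
abbrev Wr (H : Type) [Group H] (m : ℕ) : Type := (ZMod m → H) ⋊[sh H m] Multiplicative (ZMod m)

/-- functoriality -/
def wrMap {H H' : Type} [Group H] [Group H'] (m : ℕ) (f : H →* H') : Wr H m →* Wr H' m :=
  SemidirectProduct.map (f.compLeft (ZMod m)) (MonoidHom.id _) (fun a => by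
    ext x j
    rfl)

@[simp] lemma wrMap_left {H H' : Type} [Group H] [Group H'] (m : ℕ) (f : H →* H') (x : Wr H m)
    (j : ZMod m) : (wrMap m f x).left j = f (x.left j) := rfl

@[simp] lemma wrMap_right {H H' : Type} [Group H] [Group H'] (m : ℕ) (f : H →* H') (x : Wr H m) :
    (wrMap m f x).right = x.right := rfl

lemma card_wr (H : Type) [Group H] [Finite H] (e : ℕ) (hH : ∃ a, Nat.card H = 2 ^ a) :
    ∃ a, Nat.card (Wr H (2 ^ e)) = 2 ^ a := by
  obtain ⟨a, ha⟩ := hH
  refine ⟨a * 2 ^ e + e, ?_⟩
  rw [Nat.card_congr (SemidirectProduct.equivProd (φ := sh H (2 ^ e))), Nat.card_prod, Nat.card_pi]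
  simp only [ha, Finset.prod_const, Finset.card_univ, ZMod.card]
  have h1 : Nat.card (Multiplicative (ZMod (2 ^ e))) = 2 ^ e := by
    rw [Nat.card_eq_fintype_card, Fintype.card_multiplicative, ZMod.card]
  rw [h1, pow_add, pow_mul]

instance (H : Type) [Group H] [Finite H] (e : ℕ) : Finite (Wr H (2 ^ e)) :=
  Finite.of_equiv _ (SemidirectProduct.equivProd (φ := sh H (2 ^ e))).symm

/-- the value of the free generator -/
def sg {H : Type} [Group H] (m : ℕ) (z : H) : Wr H m :=
  ⟨Pi.mulSingle 0 z, Multiplicative.ofAdd 1⟩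

/-- the base -/
def bse {H : Type} [Group H] (m : ℕ) (x : ZMod m → H) : Wr H m := ⟨x, 1⟩

@[simp] lemma bse_left {H : Type} [Group H] (m : ℕ) (x : ZMod m → H) : (bse m x).left = x := rfl
@[simp] lemma bse_right {H : Type} [Group H] (m : ℕ) (x : ZMod m → H) : (bse m x).right = 1 := rfl

lemma bse_mul {H : Type} [Group H] (m : ℕ) (x y : ZMod m → H) :
    bse m x * bse m y = bse m (x * y) := by
  refine SemidirectProduct.ext ?_ ?_
  · rw [SemidirectProduct.mul_left]
    simp
  · simp

lemma wrMap_bse {H H' : Type} [Group H] [Group H'] (m : ℕ) (f : H →* H') (x : ZMod m → H) :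
    wrMap m f (bse m x) = bse m (fun j => f (x j)) := rfl

lemma wrMap_sg {H H' : Type} [Group H] [Group H'] (m : ℕ) (f : H →* H') (z : H) :
    wrMap m f (sg m z) = sg m (f z) := by
  refine SemidirectProduct.ext ?_ rfl
  funext j
  show f ((Pi.mulSingle 0 z : ZMod m → H) j) = (Pi.mulSingle 0 (f z) : ZMod m → H') j
  by_cases h : j = 0
  · subst h; simp
  · simp [h]

/-- the power of the free generator -/
lemma sg_pow {H : Type} [Group H] (m : ℕ) (z : H) (n : ℕ) (hn : 1 ≤ n) (hnm : n ≤ m) :
    ((sg m z) ^ n).left 0 = z ∧ ((sg m z) ^ n).right = Multiplicative.ofAdd (n : ZMod m) := by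
  induction n, hn using Nat.le_induction with
  | base =>
    rw [pow_one]
    exact ⟨by simp [sg], by simp [sg]⟩
  | succ n hn ih =>
    obtain ⟨h1, h2⟩ := ih (by omega)
    rw [pow_succ]
    constructor
    · rw [SemidirectProduct.mul_left, Pi.mul_apply, h1, h2]
      have h3 : (sh H m (Multiplicative.ofAdd (n : ZMod m))) (sg m z).left 0 = 1 := by
        rw [sh_apply]
        show (Pi.mulSingle 0 z : ZMod m → H) _ = 1
        rw [Pi.mulSingle_eq_of_ne]
        intro h
        have h4 : ((n : ℕ) : ZMod m) = 0 := by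
          have h5 : (0 : ZMod m) - Multiplicative.toAdd (Multiplicative.ofAdd (n : ZMod m)) = 0 := h
          rw [toAdd_ofAdd, zero_sub, neg_eq_zero] at h5
          exact h5
        rw [ZMod.natCast_eq_zero_iff] at h4
        have := Nat.le_of_dvd (by omega) h4
        omega
      rw [h3, mul_one]
    · rw [SemidirectProduct.mul_right, h2]
      show Multiplicative.ofAdd (n : ZMod m) * Multiplicative.ofAdd 1 = _
      rw [← ofAdd_add]
      push_cast
      rfl

/-- conjugation of the base by the free generator, `z` central -/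
lemma sg_conj {H : Type} [Group H] (m : ℕ) (z : H) (hz : ∀ h, z * h = h * z) (x : ZMod m → H) (n : ℕ) :
    (sg m z) ^ n * bse m x = bse m (fun j => x (j - (n : ZMod m))) * (sg m z) ^ n := by
  induction n with
  | zero => simp
  | succ n ih =>
    rw [pow_succ', mul_assoc, ih, ← mul_assoc, ← mul_assoc]
    congr 1
    refine SemidirectProduct.ext ?_ ?_
    · rw [SemidirectProduct.mul_left, SemidirectProduct.mul_left]
      funext j
      simp only [Pi.mul_apply, bse_left, bse_right, map_one, MulAut.one_apply, sh_apply]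
      show (Pi.mulSingle 0 z : ZMod m → H) j * x (j - 1 - n) = x (j - ((n + 1 : ℕ) : ZMod m)) *
        (Pi.mulSingle 0 z : ZMod m → H) j
      have e : j - ((n + 1 : ℕ) : ZMod m) = j - 1 - n := by push_cast; ring
      rw [e]
      by_cases h : j = 0
      · subst h
        simp [hz]
      · simp [h]
    · simp

section

variable {P : Type} [Group P] [TopologicalSpace P] [IsTopologicalGroup P] {ι : Type}

/-- homomorphisms to the wreath product -/
theorem wre {c : ι → P} {σ : P} (hA : Assign c σ) (e : ℕ) (H : Type) [Group H] [Finite H]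
    (hH : ∃ a, Nat.card H = 2 ^ a) (t : ι → ZMod (2 ^ e) → H) (z : H)
    (ht : ∀ i j, t i j * t i j = 1) :
    ∃ f : P →* Wr H (2 ^ e), IsOpen (f.ker : Set P) ∧ (∀ i, f (c i) = bse _ (t i)) ∧
      f σ = sg _ z := by
  refine hA (Wr H (2 ^ e)) (card_wr H e hH) (fun i => bse _ (t i)) (sg _ z) fun i => ?_
  rw [bse_mul]
  have : t i * t i = 1 := by
    funext j
    exact ht i j
  rw [this]
  rfl

/-- the projection -/
theorem exists_kappa {c : ι → P} {σ : P} (hA : Assign c σ) (e : ℕ) :
    ∃ κ : P →* Multiplicative (ZMod (2 ^ e)), IsOpen (κ.ker : Set P) ∧ (∀ i, κ (c i) = 1) ∧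
      κ σ = Multiplicative.ofAdd 1 := by
  obtain ⟨κ, h1, h2, h3⟩ := hA (Multiplicative (ZMod (2 ^ e))) ⟨e, by
    rw [Nat.card_eq_fintype_card, Fintype.card_multiplicative, ZMod.card]⟩ (fun _ => 1)
    (Multiplicative.ofAdd 1) (fun _ => mul_one _)
  exact ⟨κ, h1, h2, h3⟩

/-- homomorphisms to discrete groups which agree on the generators -/
theorem hom_ext {c : ι → P} {σ : P} (hgen : TopGen c σ) {H : Type} [Group H] (f g : P →* H)
    (hf : IsOpen (f.ker : Set P)) (hg : IsOpen (g.ker : Set P)) (hc : ∀ i, f (c i) = g (c i))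
    (hσ : f σ = g σ) : f = g := by
  have hN : IsOpen ((MonoidHom.eqLocus f g : Subgroup P) : Set P) := by
    have h1 : IsOpen (((f.ker ⊓ g.ker : Subgroup P)) : Set P) := by
      rw [Subgroup.coe_inf]
      exact hf.inter hg
    refine Subgroup.isOpen_mono (H₁ := f.ker ⊓ g.ker) ?_ h1
    intro q hq
    obtain ⟨h3, h4⟩ := Subgroup.mem_inf.mp hq
    show f q = g q
    rw [MonoidHom.mem_ker.mp h3, MonoidHom.mem_ker.mp h4]
  have hT := hgen _ hN hc hσ
  ext q
  have : q ∈ MonoidHom.eqLocus f g := by rw [hT]; exact Subgroup.mem_top q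
  exact this

end

end Pool.Agent.Helper90.MZU
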